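import Pool.Agent.V8H77.RH.Defs
import Pool.Agent.R929.DH.Iso

/-!
# Homogeneous components; the primitive classes of a class of type (1, 1)
-/

open scoped ComplexConjugate
open Module

namespace Pool.Agent.V8H77.RH

open Pool.Agent.W539.DI Pool.Agent.R929.DH

variable {n : ℕ} (X : KRing n)

/-- The component of type `i`. -/
noncomputable def comp (i : ℤ × ℤ) : X.R →ₗ[ℂ] X.R :=
  (X.H i).subtype ∘ₗ (DirectSum.component ℂ (ℤ × ℤ) (fun j => X.H j) i) ∘ₗ
    (DirectSum.decomposeLinearEquiv X.H).toLinearMap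

theorem comp_apply (i : ℤ × ℤ) (x : X.R) :
    comp X i x = (DirectSum.decompose X.H x i : X.R) := rfl

theorem comp_mem (i : ℤ × ℤ) (x : X.R) : comp X i x ∈ X.H i := by
  rw [comp_apply]
  exact (DirectSum.decompose X.H x i).2

theorem comp_same {i : ℤ × ℤ} {x : X.R} (hx : x ∈ X.H i) : comp X i x = x := by
  rw [comp_apply, DirectSum.decompose_of_mem_same _ hx]

theorem comp_ne {i j : ℤ × ℤ} {x : X.R} (hx : x ∈ X.H i) (h : i ≠ j) : comp X j x = 0 := by
  rw [comp_apply, DirectSum.decompose_of_mem_ne _ hx h]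

theorem comp_mul {i : ℤ × ℤ} {z : X.R} (hz : z ∈ X.H i) (j : ℤ × ℤ) (x : X.R) :
    comp X (i + j) (z * x) = z * comp X j x := by
  rw [comp_apply, comp_apply, DirectSum.coe_decompose_mul_add_of_left_mem X.H hz]

theorem comp_pow {L : X.R} (hL : L ∈ X.H (1, 1)) (k : ℕ) (p q : ℤ) (x : X.R) :
    comp X (p + k, q + k) (L ^ k * x) = L ^ k * comp X (p, q) x := by
  have h := comp_mul X (X.pow_mem hL k) (p, q) x
  rw [← h]
  congr 2
  ext <;> simp [add_comm]

theorem exists_sum (x : X.R) : ∃ s : Finset (ℤ × ℤ), x = ∑ i ∈ s, comp X i x := by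
  classical
  refine ⟨(DirectSum.decompose X.H x).support, ?_⟩
  exact (DirectSum.sum_support_decompose X.H x).symm

variable (L : X.R)

/-- The kernel of `L ^ (k + 1)`. -/
def Ker (k : ℕ) : Submodule ℂ X.R := LinearMap.ker (LinearMap.mulLeft ℂ (L ^ (k + 1)))

/-- The classes in the kernel of `L ^ (k + 1)` such that `L ^ k x ∈ L ^ (k + 1) R`. -/
def RadK (k : ℕ) : Submodule ℂ (Ker X L k) :=
  ((LinearMap.range (LinearMap.mulLeft ℂ (L ^ (k + 1)))).comap
    (LinearMap.mulLeft ℂ (L ^ k))).comap (Ker X L k).subtype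

variable {X L}

theorem mem_Ker {k : ℕ} {x : X.R} : x ∈ Ker X L k ↔ L ^ (k + 1) * x = 0 := by
  rw [Ker, LinearMap.mem_ker, LinearMap.mulLeft_apply]

theorem mem_RadK {k : ℕ} {x : Ker X L k} : x ∈ RadK X L k ↔ Rad X L k x := by
  rw [RadK, Submodule.mem_comap, Submodule.mem_comap, LinearMap.mem_range, Rad]
  constructor
  · rintro ⟨u, hu⟩
    exact ⟨u, hu.symm⟩
  · rintro ⟨u, hu⟩
    exact ⟨u, hu.symm⟩

theorem comp_Ker (hL : L ∈ X.H (1, 1)) {k : ℕ} {x : X.R} (hx : x ∈ Ker X L k) (i : ℤ × ℤ) :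
    comp X i x ∈ Ker X L k := by
  rw [mem_Ker] at hx ⊢
  obtain ⟨p, q⟩ := i
  rw [← comp_pow X hL, hx, map_zero]

theorem comp_Rad (hL : L ∈ X.H (1, 1)) {k : ℕ} {x : X.R} (hx : Rad X L k x) (i : ℤ × ℤ) :
    Rad X L k (comp X i x) := by
  obtain ⟨p, q⟩ := i
  obtain ⟨u, hu⟩ := hx
  refine ⟨comp X (p - 1, q - 1) u, ?_⟩
  rw [← comp_pow X hL, hu, ← comp_pow X hL]
  congr 2
  ext <;> simp

theorem lef_Ker {z : X.R} (hL : L ∈ X.H (1, 1)) {k : ℕ} {x : X.R} (hx : x ∈ Ker X L k) :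
    z * x ∈ Ker X L k := by
  rw [mem_Ker] at hx ⊢
  rw [← mul_assoc, pow_central hL, mul_assoc, hx, mul_zero]

theorem lef_Rad {z : X.R} (hL : L ∈ X.H (1, 1)) {k : ℕ} {x : X.R} (hx : Rad X L k x) :
    Rad X L k (z * x) := by
  obtain ⟨u, hu⟩ := hx
  refine ⟨z * u, ?_⟩
  rw [← mul_assoc, pow_central hL, mul_assoc, hu, ← mul_assoc, ← pow_central hL, mul_assoc]

theorem bar_Ker (hb : X.bar L = L) {k : ℕ} {x : X.R} (hx : x ∈ Ker X L k) :
    X.bar x ∈ Ker X L k := by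
  rw [mem_Ker] at hx ⊢
  rw [← bar_pow hb, hx, map_zero]

/-- The form `∫ L ^ k x bar y`. -/
noncomputable def bil (X : KRing n) (L : X.R) (k : ℕ) : X.R →ₗ[ℂ] X.R →ₛₗ[starRingEnd ℂ] ℂ :=
  LinearMap.mk₂'ₛₗ (RingHom.id ℂ) (starRingEnd ℂ) (fun x y => X.tr (L ^ k * (x * X.bar y)))
    (fun x y z => by rw [add_mul, mul_add, map_add])
    (fun a x y => by
      rw [smul_mul_assoc, mul_smul_comm, map_smul]
      rfl)
    (fun x y z => by rw [map_add, mul_add, mul_add, map_add])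
    (fun a x y => by
      rw [LinearMap.map_smulₛₗ, mul_smul_comm, mul_smul_comm, map_smul])

theorem bil_apply (k : ℕ) (x y : X.R) : bil X L k x y = X.tr (L ^ k * (x * X.bar y)) := rfl

theorem bil_left (hL : L ∈ X.H (1, 1)) {k : ℕ} {x y : X.R} (hx : Rad X L k x)
    (hb : X.bar L = L) (hy : y ∈ Ker X L k) : bil X L k x y = 0 := by
  obtain ⟨u, hu⟩ := hx
  have hy' := mem_Ker.1 (bar_Ker hb hy)
  rw [bil_apply, ← mul_assoc, hu, mul_assoc, ← mul_assoc, pow_central hL, mul_assoc, hy',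
    mul_zero, map_zero]

theorem bar_Rad (hb : X.bar L = L) {k : ℕ} {x : X.R} (hx : Rad X L k x) :
    Rad X L k (X.bar x) := by
  obtain ⟨u, hu⟩ := hx
  refine ⟨X.bar u, ?_⟩
  rw [← bar_pow hb, hu, bar_pow hb]

theorem bil_right (hL : L ∈ X.H (1, 1)) {k : ℕ} {x y : X.R} (hx : x ∈ Ker X L k)
    (hb : X.bar L = L) (hy : Rad X L k y) : bil X L k x y = 0 := by
  obtain ⟨u, hu⟩ := bar_Rad hb hy
  rw [mem_Ker] at hx
  rw [bil_apply, ← mul_assoc, pow_central hL, mul_assoc, hu, ← mul_assoc, ← pow_central hL,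
    hx, zero_mul, map_zero]

/-- Nondegeneracy. -/
theorem tr_nondeg {x : X.R} (h : ∀ y, X.tr (x * y) = 0) : x = 0 := by
  obtain ⟨s, hs⟩ := exists_sum X x
  rw [hs]
  refine Finset.sum_eq_zero fun i _ => ?_
  obtain ⟨p, q⟩ := i
  refine X.pd p q _ (comp_mem X _ x) fun y hy => ?_
  obtain ⟨s, hs⟩ := exists_sum X x
  have h1 := h y
  by_cases hi : (p, q) ∈ s
  · rw [hs, Finset.sum_mul, map_sum, Finset.sum_eq_single (p, q)] at h1
    · exact h1
    · rintro ⟨p', q'⟩ _ hne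
      rw [X.tr_van _ _ _ (X.mul_mem (comp_mem X (p', q') x) hy)]
      rintro ⟨h2, h3⟩
      apply hne
      ext <;> simp only <;> omega
    · intro h2
      exact absurd hi h2
  · have h2 : comp X (p, q) x = 0 := by
      rw [hs, map_sum]
      refine Finset.sum_eq_zero fun j hj => ?_
      refine comp_ne X (comp_mem X j x) ?_
      rintro rfl
      exact hi hj
    rw [h2, zero_mul, map_zero]

/-- The orthogonal of the kernel of `L ^ (k + 1)` is its image. -/
theorem rad_of_bil (hL : L ∈ X.H (1, 1)) (hb : X.bar L = L) {k : ℕ} {x : X.R}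
    (h : ∀ y ∈ Ker X L k, bil X L k x y = 0) : Rad X L k x := by
  let B : X.R →ₗ[ℂ] Module.Dual ℂ X.R :=
    LinearMap.mk₂ ℂ (fun x y => X.tr (x * y)) (fun x y z => by rw [add_mul, map_add])
      (fun a x y => by rw [smul_mul_assoc, map_smul]) (fun x y z => by rw [mul_add, map_add])
      (fun a x y => by rw [mul_smul_comm, map_smul])
  have hB : ∀ x y, B x y = X.tr (x * y) := fun x y => rfl
  have hinj : Function.Injective B := by
    rw [injective_iff_map_eq_zero]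
    intro x hx
    refine tr_nondeg fun y => ?_
    rw [← hB, hx, LinearMap.zero_apply]
  have hsurj : Function.Surjective B := by
    refine (LinearMap.injective_iff_surjective_of_finrank_eq_finrank ?_).1 hinj
    exact (Subspace.dual_finrank_eq).symm
  let T : X.R →ₗ[ℂ] X.R := LinearMap.mulLeft ℂ (L ^ (k + 1))
  have h1 : B (L ^ k * x) ∈ (LinearMap.ker T).dualAnnihilator := by
    rw [Submodule.mem_dualAnnihilator]
    intro y hy
    have h2 : y ∈ Ker X L k := hy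
    have h3 := h (X.bar y) (bar_Ker hb h2)
    rw [bil_apply, X.bar_bar, ← mul_assoc] at h3
    exact h3
  rw [← LinearMap.range_dualMap_eq_dualAnnihilator_ker, LinearMap.mem_range] at h1
  obtain ⟨ψ, hψ⟩ := h1
  obtain ⟨u, rfl⟩ := hsurj ψ
  refine ⟨u, ?_⟩
  rw [← sub_eq_zero]
  refine tr_nondeg fun y => ?_
  have h4 := LinearMap.congr_fun hψ y
  rw [LinearMap.dualMap_apply, hB, hB] at h4
  have h5 : T y = L ^ (k + 1) * y := rfl
  rw [h5, ← mul_assoc, ← pow_central hL] at h4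
  rw [sub_mul, map_sub, h4, sub_self]

end Pool.Agent.V8H77.RH
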