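import Pool.Agent.V8H77.RH.Trans

/-!
# Counting Jordan blocks
-/

open scoped ComplexConjugate
open Module

namespace Pool.Agent.V8H77.RH

open Pool.Agent.W539.DI Pool.Agent.R929.DH Pool.Agent.TH125.Tw

theorem finrank_map_add {V W : Type*} [AddCommGroup V] [Module ℂ V] [FiniteDimensional ℂ V]
    [AddCommGroup W] [Module ℂ W] (f : V →ₗ[ℂ] W) (S : Submodule ℂ V) :
    finrank ℂ (S.map f) + finrank ℂ (S ⊓ LinearMap.ker f : Submodule ℂ V) = finrank ℂ S := by
  have h1 := LinearMap.finrank_range_add_finrank_ker (f.domRestrict S)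
  rw [LinearMap.range_domRestrict, LinearMap.ker_domRestrict] at h1
  rw [← h1]
  congr 1
  have h2 : (S ⊓ LinearMap.ker f : Submodule ℂ V) =
      ((LinearMap.ker f).comap S.subtype).map S.subtype := by
    rw [Submodule.map_comap_subtype]
  rw [h2]
  exact (Submodule.equivMapOfInjective S.subtype S.injective_subtype _).finrank_eq.symm

variable {n : ℕ} {X Y : KRing n} {L : X.R} {L' : Y.R} {k : ℕ}

/-- The classes of type `(p, q)` in the kernel of `L ^ k`. -/
def Z (X : KRing n) (L : X.R) (k : ℕ) (p q : ℤ) : Submodule ℂ X.R :=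
  X.H (p, q) ⊓ LinearMap.ker (LinearMap.mulLeft ℂ (L ^ k))

/-- The classes of type `(p, q)` which vanish in the primitive part. -/
def T (X : KRing n) (L : X.R) (k : ℕ) (p q : ℤ) : Submodule ℂ X.R :=
  Z X L (k + 1) p q ⊓ (LinearMap.range (LinearMap.mulLeft ℂ (L ^ (k + 1)))).comap
    (LinearMap.mulLeft ℂ (L ^ k))

theorem mem_Z {p q : ℤ} {x : X.R} : x ∈ Z X L k p q ↔ x ∈ X.H (p, q) ∧ L ^ k * x = 0 := by
  rw [Z, Submodule.mem_inf, LinearMap.mem_ker, LinearMap.mulLeft_apply]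

theorem mem_T {p q : ℤ} {x : X.R} :
    x ∈ T X L k p q ↔ (x ∈ X.H (p, q) ∧ L ^ (k + 1) * x = 0) ∧ Rad X L k x := by
  rw [T, Submodule.mem_inf, mem_Z, Submodule.mem_comap, LinearMap.mem_range, Rad]
  constructor
  · rintro ⟨h, u, hu⟩
    exact ⟨h, u, hu.symm⟩
  · rintro ⟨h, u, hu⟩
    exact ⟨h, u, hu.symm⟩

theorem mem_ends {p q : ℤ} {y : X.R} :
    y ∈ ends X L k p q ↔ y ∈ X.H (p, q) ∧ L * y = 0 ∧ ∃ x, L ^ k * x = y := by
  rw [ends, Submodule.mem_inf, Submodule.mem_inf, LinearMap.mem_ker, LinearMap.mulLeft_apply,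
    LinearMap.mem_range]
  rfl

theorem ends_anti (p q : ℤ) : ends X L (k + 1) p q ≤ ends X L k p q := by
  intro y hy
  rw [mem_ends] at hy ⊢
  obtain ⟨h1, h2, x, rfl⟩ := hy
  refine ⟨h1, h2, L * x, ?_⟩
  rw [← mul_assoc, pow_succ]

theorem map_Z (hL : L ∈ X.H (1, 1)) (p q : ℤ) :
    (Z X L (k + 1) p q).map (LinearMap.mulLeft ℂ (L ^ k)) = ends X L k (p + k) (q + k) := by
  ext y
  rw [Submodule.mem_map, mem_ends]
  constructor
  · rintro ⟨x, hx, rfl⟩
    rw [mem_Z] at hx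
    refine ⟨X.pow_mul_mem hL k hx.1, ?_, x, rfl⟩
    rw [LinearMap.mulLeft_apply, ← mul_assoc, ← pow_succ']
    exact hx.2
  · rintro ⟨h1, h2, x, rfl⟩
    have h3 : L ^ k * comp X (p, q) x = L ^ k * x := by
      rw [← comp_pow X hL, comp_same X h1]
    refine ⟨comp X (p, q) x, ?_, h3⟩
    rw [mem_Z]
    refine ⟨comp_mem X _ x, ?_⟩
    rw [pow_succ', mul_assoc, h3, h2]

theorem map_T (hL : L ∈ X.H (1, 1)) (p q : ℤ) :
    (T X L k p q).map (LinearMap.mulLeft ℂ (L ^ k)) = ends X L (k + 1) (p + k) (q + k) := by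
  ext y
  rw [Submodule.mem_map, mem_ends]
  constructor
  · rintro ⟨x, hx, rfl⟩
    rw [mem_T] at hx
    obtain ⟨⟨h1, h2⟩, u, hu⟩ := hx
    refine ⟨X.pow_mul_mem hL k h1, ?_, u, hu.symm⟩
    rw [LinearMap.mulLeft_apply, ← mul_assoc, ← pow_succ']
    exact h2
  · rintro ⟨h1, h2, u, rfl⟩
    have h3 : L ^ (k + 1) * comp X (p - 1, q - 1) u = L ^ (k + 1) * u := by
      rw [← comp_pow X hL]
      have e : ((p - 1 + ((k + 1 : ℕ) : ℤ), q - 1 + ((k + 1 : ℕ) : ℤ)) : ℤ × ℤ) =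
          (p + k, q + k) := by
        ext <;> push_cast <;> ring
      rw [e, comp_same X h1]
    have h4 : L ^ k * (L * comp X (p - 1, q - 1) u) = L ^ (k + 1) * u := by
      rw [← mul_assoc, ← pow_succ, h3]
    refine ⟨L * comp X (p - 1, q - 1) u, ?_, h4⟩
    rw [mem_T]
    refine ⟨⟨?_, ?_⟩, u, h4⟩
    · have h5 := X.mul_mem hL (comp_mem X (p - 1, q - 1) u)
      have e : ((1 + (p - 1), 1 + (q - 1)) : ℤ × ℤ) = (p, q) := by
        ext <;> simp
      rw [← e]
      exact h5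
    · rw [pow_succ', mul_assoc, h4, h2]

theorem T_le (p q : ℤ) : T X L k p q ≤ Z X L (k + 1) p q := inf_le_left

theorem Z_mono (p q : ℤ) : Z X L k p q ≤ Z X L (k + 1) p q := by
  intro x hx
  rw [mem_Z] at hx ⊢
  refine ⟨hx.1, ?_⟩
  rw [pow_succ', mul_assoc, hx.2, mul_zero]

theorem inf_Z (p q : ℤ) : Z X L (k + 1) p q ⊓ LinearMap.ker (LinearMap.mulLeft ℂ (L ^ k)) =
    Z X L k p q := by
  apply le_antisymm
  · rintro x ⟨h1, h2⟩
    rw [mem_Z]
    exact ⟨(mem_Z.1 h1).1, h2⟩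
  · intro x hx
    exact ⟨Z_mono p q hx, (mem_Z.1 hx).2⟩

theorem inf_T (p q : ℤ) : T X L k p q ⊓ LinearMap.ker (LinearMap.mulLeft ℂ (L ^ k)) =
    Z X L k p q := by
  apply le_antisymm
  · rintro x ⟨h1, h2⟩
    rw [mem_Z]
    exact ⟨(mem_T.1 h1).1.1, h2⟩
  · intro x hx
    have h1 := mem_Z.1 hx
    refine ⟨mem_T.2 ⟨mem_Z.1 (Z_mono p q hx), 0, ?_⟩, h1.2⟩
    rw [h1.2, mul_zero]

theorem finrank_Z (hL : L ∈ X.H (1, 1)) (p q : ℤ) :
    finrank ℂ (ends X L k (p + k) (q + k)) + finrank ℂ (Z X L k p q) =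
      finrank ℂ (Z X L (k + 1) p q) := by
  have h := finrank_map_add (LinearMap.mulLeft ℂ (L ^ k)) (Z X L (k + 1) p q)
  rwa [map_Z hL, inf_Z] at h

theorem finrank_T (hL : L ∈ X.H (1, 1)) (p q : ℤ) :
    finrank ℂ (ends X L (k + 1) (p + k) (q + k)) + finrank ℂ (Z X L k p q) =
      finrank ℂ (T X L k p q) := by
  have h := finrank_map_add (LinearMap.mulLeft ℂ (L ^ k)) (T X L k p q)
  rwa [map_T hL, inf_T] at h

theorem finrank_pc (p q : ℤ) :
    finrank ℂ (pc X L k (p, q)) + finrank ℂ (T X L k p q) = finrank ℂ (Z X L (k + 1) p q) := by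
  have h := finrank_map_add (cl X L k) ((X.H (p, q)).comap (Ker X L k).subtype)
  have e1 : finrank ℂ ((X.H (p, q)).comap (Ker X L k).subtype) =
      finrank ℂ (Z X L (k + 1) p q) := by
    have h2 : Z X L (k + 1) p q =
        ((X.H (p, q)).comap (Ker X L k).subtype).map (Ker X L k).subtype := by
      rw [Submodule.map_comap_subtype, Z, inf_comm]
      rfl
    rw [h2]
    exact (Submodule.equivMapOfInjective _ (Ker X L k).injective_subtype _).finrank_eq
  have e2 : finrank ℂ ((X.H (p, q)).comap (Ker X L k).subtype ⊓ LinearMap.ker (cl X L k) :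
      Submodule ℂ (Ker X L k)) = finrank ℂ (T X L k p q) := by
    have h2 : T X L k p q = ((X.H (p, q)).comap (Ker X L k).subtype ⊓
        LinearMap.ker (cl X L k)).map (Ker X L k).subtype := by
      ext x
      rw [mem_T, Submodule.mem_map]
      constructor
      · rintro ⟨⟨h1, h2⟩, h3⟩
        refine ⟨⟨x, mem_Ker.2 h2⟩, ⟨h1, ?_⟩, rfl⟩
        show cl X L k _ = 0
        rw [cl_eq_zero]
        exact h3
      · rintro ⟨y, ⟨h1, h2⟩, rfl⟩
        refine ⟨⟨h1, mem_Ker.1 y.2⟩, ?_⟩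
        have h3 : cl X L k y = 0 := h2
        rwa [cl_eq_zero] at h3
    rw [h2]
    exact (Submodule.equivMapOfInjective _ (Ker X L k).injective_subtype _).finrank_eq
  rw [e1, e2] at h
  exact h

theorem blocks_eq (hL : L ∈ X.H (1, 1)) (p q : ℤ) :
    blocks X L k p q = finrank ℂ (pc X L k (p, q)) := by
  have h1 := finrank_Z (k := k) hL p q
  have h2 := finrank_T (k := k) hL p q
  have h3 := finrank_pc (X := X) (L := L) (k := k) p q
  rw [blocks]
  omega

theorem blocks_tw {N : ℕ} (hN : N + k = n) (h : RelativeHodge X L) (p q : ℕ) :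
    (tw k hN h).hodgeNumber p q = blocks X L k p q := by
  rw [blocks_eq h.mem]
  rfl

theorem blocks_neg (hL : L ∈ X.H (1, 1)) {p q : ℤ} (h : p < 0 ∨ q < 0) :
    blocks X L k p q = 0 := by
  rw [blocks_eq hL, pc_neg h, finrank_bot]

theorem pow_zero_of_lt (hL : L ∈ X.H (1, 1)) (hk : n < k) : L ^ k = 0 := by
  have h1 := X.pow_mem hL k
  rw [X.van_top (by left; omega), Submodule.mem_bot] at h1
  exact h1

theorem ends_large (hL : L ∈ X.H (1, 1)) (hk : n < k) (p q : ℤ) : ends X L k p q = ⊥ := by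
  rw [Submodule.eq_bot_iff]
  intro y hy
  obtain ⟨-, -, x, rfl⟩ := mem_ends.1 hy
  rw [pow_zero_of_lt hL hk, zero_mul]

theorem blocks_large (hL : L ∈ X.H (1, 1)) (hk : n < k) (p q : ℤ) :
    blocks X L k p q = 0 := by
  rw [blocks, ends_large hL hk, finrank_bot, Nat.zero_sub]

theorem blocks_dual (h : RelativeHodge X L) {p q p' q' : ℤ} (hp : p + q' + k = n)
    (hq : q + p' + k = n) : blocks X L k p q = blocks X L k p' q' := by
  by_cases h1 : p < 0 ∨ q < 0
  · rw [blocks_neg h.mem h1]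
    have h2 : n < p' + k ∨ n < q' + k := by omega
    by_cases h3 : n < k
    · rw [blocks_large h.mem h3]
    by_cases h4 : p' < 0 ∨ q' < 0
    · rw [blocks_neg h.mem h4]
    push Not at h4
    obtain ⟨a, rfl⟩ := Int.eq_ofNat_of_zero_le h4.1
    obtain ⟨b, rfl⟩ := Int.eq_ofNat_of_zero_le h4.2
    obtain ⟨N, hN⟩ : ∃ N, N + k = n := ⟨n - k, by omega⟩
    have h5 := blocks_tw (k := k) hN h a b
    rw [(tw k hN h).hodge_large (by omega)] at h5
    exact h5
  push Not at h1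
  by_cases h4 : p' < 0 ∨ q' < 0
  · rw [blocks_neg h.mem h4]
    by_cases h3 : n < k
    · rw [blocks_large h.mem h3]
    obtain ⟨a, rfl⟩ := Int.eq_ofNat_of_zero_le h1.1
    obtain ⟨b, rfl⟩ := Int.eq_ofNat_of_zero_le h1.2
    obtain ⟨N, hN⟩ : ∃ N, N + k = n := ⟨n - k, by omega⟩
    have h5 := blocks_tw (k := k) hN h a b
    rw [(tw k hN h).hodge_large (by omega)] at h5
    exact h5.symm
  push Not at h4
  obtain ⟨a, rfl⟩ := Int.eq_ofNat_of_zero_le h1.1
  obtain ⟨b, rfl⟩ := Int.eq_ofNat_of_zero_le h1.2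
  obtain ⟨a', rfl⟩ := Int.eq_ofNat_of_zero_le h4.1
  obtain ⟨b', rfl⟩ := Int.eq_ofNat_of_zero_le h4.2
  obtain ⟨N, hN⟩ : ∃ N, N + k = n := ⟨n - k, by omega⟩
  have h5 := (tw k hN h).dim_eq (p := a) (q := b) (p' := a') (q' := b') (by omega) (by omega)
  rw [blocks_tw, blocks_tw] at h5
  exact h5

/-! ### Hodge numbers -/

theorem finrank_ends (p q : ℤ) : finrank ℂ (ends X L k p q) =
    blocks X L k (p - k) (q - k) + finrank ℂ (ends X L (k + 1) p q) := by
  rw [blocks]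
  have e : ((p - k + k, q - k + k) : ℤ × ℤ) = (p, q) := by
    ext <;> simp
  have e1 : p - k + k = p := by ring
  have e2 : q - k + k = q := by ring
  rw [e1, e2]
  have h1 := Submodule.finrank_mono (ends_anti (X := X) (L := L) (k := k) p q)
  omega

theorem ends_congr (hL : L ∈ X.H (1, 1)) (hL' : L' ∈ Y.H (1, 1)) {k0 : ℕ}
    (h : ∀ k, k0 ≤ k → ∀ p q : ℤ, blocks X L k p q = blocks Y L' k p q) (m : ℕ) :
    ∀ k, k0 ≤ k → n < k + m → ∀ p q : ℤ,
      finrank ℂ (ends X L k p q) = finrank ℂ (ends Y L' k p q) := by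
  induction m with
  | zero =>
    intro k _ hk p q
    rw [ends_large hL (by omega), ends_large hL' (by omega), finrank_bot, finrank_bot]
  | succ m ih =>
    intro k hk0 hk p q
    rw [finrank_ends (X := X), finrank_ends (X := Y), h k hk0,
      ih (k + 1) (by omega) (by omega)]

theorem h_eq (hL : L ∈ X.H (1, 1)) (p q : ℤ) (k : ℕ) : X.h p q =
    finrank ℂ (Z X L k p q) +
      ∑ i ∈ Finset.range (n + 1), finrank ℂ (ends X L (k + i) (p + (k + i)) (q + (k + i))) := by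
  have h1 : ∀ m : ℕ, finrank ℂ (Z X L (k + m) p q) = finrank ℂ (Z X L k p q) +
      ∑ i ∈ Finset.range m, finrank ℂ (ends X L (k + i) (p + (k + i)) (q + (k + i))) := by
    intro m
    induction m with
    | zero => rw [Finset.range_zero, Finset.sum_empty, add_zero, add_zero]
    | succ m ih =>
      have h2 := finrank_Z (k := k + m) hL p q
      have e : k + (m + 1) = k + m + 1 := by ring
      rw [e, Finset.sum_range_succ, ← add_assoc, ← ih, ← h2]
      push_cast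
      ring
  rw [← h1]
  have h2 : Z X L (k + (n + 1)) p q = X.H (p, q) := by
    rw [Z, pow_zero_of_lt hL (by omega)]
    have h3 : LinearMap.mulLeft ℂ (0 : X.R) = 0 := by
      ext x
      simp
    rw [h3, LinearMap.ker_zero, inf_top_eq]
  rw [h2, KRing.h]

theorem Z_zero (p q : ℤ) : Z X L 0 p q = ⊥ := by
  rw [Submodule.eq_bot_iff]
  intro x hx
  have h := (mem_Z.1 hx).2
  rwa [pow_zero, one_mul] at h

theorem h_congr (hL : L ∈ X.H (1, 1)) (hL' : L' ∈ Y.H (1, 1))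
    (h : ∀ (k : ℕ) (p q : ℤ), blocks X L k p q = blocks Y L' k p q) (p q : ℤ) :
    X.h p q = Y.h p q := by
  rw [h_eq hL p q 0, h_eq hL' p q 0, Z_zero, Z_zero, finrank_bot, finrank_bot]
  congr 1
  refine Finset.sum_congr rfl fun i _ => ?_
  exact ends_congr hL hL' (k0 := 0) (fun k _ => h k) (n + 1) _ (by omega) (by omega) _ _

/-- The rank of `L ^ k` on the classes of type `(p, q)`. -/
noncomputable def rk (X : KRing n) (L : X.R) (k : ℕ) (p q : ℤ) : ℕ :=
  finrank ℂ ((X.H (p, q)).map (LinearMap.mulLeft ℂ (L ^ k)))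

theorem rk_eq (hL : L ∈ X.H (1, 1)) (p q : ℤ) (k : ℕ) : rk X L k p q =
    ∑ i ∈ Finset.range (n + 1), finrank ℂ (ends X L (k + i) (p + (k + i)) (q + (k + i))) := by
  have h1 := finrank_map_add (LinearMap.mulLeft ℂ (L ^ k)) (X.H (p, q))
  have h2 := h_eq hL p q k
  rw [KRing.h] at h2
  have h3 : finrank ℂ (X.H (p, q) ⊓ LinearMap.ker (LinearMap.mulLeft ℂ (L ^ k)) :
      Submodule ℂ X.R) = finrank ℂ (Z X L k p q) := rfl
  rw [rk]
  omega

theorem rk_congr (hL : L ∈ X.H (1, 1)) (hL' : L' ∈ Y.H (1, 1)) {k : ℕ}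
    (h : ∀ l, k ≤ l → ∀ p q : ℤ, blocks X L l p q = blocks Y L' l p q) (p q : ℤ) :
    rk X L k p q = rk Y L' k p q := by
  rw [rk_eq hL, rk_eq hL']
  refine Finset.sum_congr rfl fun i _ => ?_
  exact ends_congr hL hL' (k0 := k) h (n + 1) _ (by omega) (by omega) _ _

end Pool.Agent.V8H77.RH
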