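import Pool.Agent.R929.DH.Defs

/-!
# The Lefschetz blocks of a class of type (1, 1)
-/

namespace Pool.Agent.V8H77.RH

open Pool.Agent.W539.DI

variable {n : ℕ}

/-- The classes `y` of type `(p, q)` with `L y = 0` which are of the form `L ^ k x`. -/
def ends (X : KRing n) (L : X.R) (k : ℕ) (p q : ℤ) : Submodule ℂ X.R :=
  X.H (p, q) ⊓ (LinearMap.ker (LinearMap.mulLeft ℂ L) ⊓ LinearMap.range (LinearMap.mulLeft ℂ (L ^ k)))

/-- The number of Jordan blocks of length `k + 1` of the multiplication by `L` whose first vector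
is of type `(p, q)`: the dimension of the classes `y` of type `(p + k, q + k)` with `L y = 0` and
`y ∈ L ^ k R`, minus the dimension of those with `y ∈ L ^ (k + 1) R`. -/
noncomputable def blocks (X : KRing n) (L : X.R) (k : ℕ) (p q : ℤ) : ℕ :=
  Module.finrank ℂ (ends X L k (p + k) (q + k)) -
    Module.finrank ℂ (ends X L (k + 1) (p + k) (q + k))

/-- The class `x` with `L ^ (k + 1) x = 0` is `k`-primitive-trivial: `L ^ k x ∈ L ^ (k + 1) R`. -/
def Rad (X : KRing n) (L : X.R) (k : ℕ) (x : X.R) : Prop := ∃ u, L ^ k * x = L ^ (k + 1) * u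

/-- The real class `L` of type `(1, 1)` has the cohomological properties of the pull-back of an
ample class under a morphism `f : X → B` (any morphism), with respect to the Kähler class `ω`:
the relative hard Lefschetz theorem and the relative Hodge-Riemann bilinear relations of
de Cataldo and Migliorini, in all perversities.

The quotient of `{x ∈ H^{p,q} : L ^ (k + 1) x = 0}` by the classes with `L ^ k x ∈ L ^ (k + 1) R` is
the `L`-primitive part of the cohomology of `B` in degree `- k` with coefficients in the perverse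
cohomology of `f` in degree `p + q + k - n` (the perversity). -/
structure RelativeHodge (X : KRing n) (L : X.R) : Prop where
  mem : L ∈ X.H (1, 1)
  real : X.bar L = L
  /-- relative hard Lefschetz theorem -/
  hl : ∀ (p q : ℤ) (k j : ℕ), p + q + k + j = n → ∀ x ∈ X.H (p, q), L ^ (k + 1) * x = 0 →
    Rad X L k (X.ω ^ j * x) → Rad X L k x
  /-- relative Hodge-Riemann bilinear relations -/
  hr : ∀ (p q : ℤ) (k j : ℕ), p + q + k + j = n → ∀ x ∈ X.H (p, q), L ^ (k + 1) * x = 0 →
    Rad X L k (X.ω ^ (j + 1) * x) → ¬ Rad X L k x →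
    ∃ r : ℝ, 0 < r ∧ Complex.I ^ (p - q) * (-1 : ℂ) ^ ((p + q) * (p + q - 1) / 2) *
      X.tr (L ^ k * (X.ω ^ j * (x * X.bar x))) = (r : ℂ)

end Pool.Agent.V8H77.RH
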