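import Pool.Agent.V8H77.RH.Main

/-!
# Fibrations in threefolds
-/

open scoped ComplexConjugate
open Module Finset

namespace Pool.Agent.V8H77.RH

open Pool.Agent.W539.DI Pool.Agent.R929.DH

variable {n : ℕ}

/-- The class `L` on `X` is the pull-back of an ample class under a fibration `f : X → B` in
threefolds, up to small degenerations, `b p q` being the dimension of the primitive part of type
`(p, q)` of the intersection cohomology of `B`: for the perverse cohomology of `f`,

* there is none in degree `< -3` (so that `L` has no blocks of length `k + 1` which start in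
  type `(p, q)` with `p + q + k - n < -3`);
* the one in degree `-3` is the intersection complex of `B` (so that the number of the blocks with
  `p + q + k - n = -3` is `b p q`).

This holds if `f` has connected fibres, the general fibre has dimension three, and the
strata `S ≠ B` of `B` over which the fibres have dimension `k_S` satisfy `2 k_S + dim S - n ≤ 2`;
for instance if all fibres are of dimension at most three. -/
structure Threefolds (X : KRing n) (L : X.R) (b : ℤ → ℤ → ℕ) : Prop where
  none : ∀ (k : ℕ) (p q : ℤ), p + q + k + 3 < n → blocks X L k p q = 0
  base : ∀ (k : ℕ) (p q : ℤ), p + q + k + 3 = n → blocks X L k p q = b p q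

/-- The class zero (the map to a point) satisfies the conditions. -/
theorem relativeHodge_zero (X : KRing n) : RelativeHodge X 0 where
  mem := Submodule.zero_mem _
  real := map_zero _
  hl := by
    intro p q k j h x hx _ h1
    obtain ⟨u, hu⟩ := h1
    rcases Nat.eq_zero_or_pos k with rfl | hk
    · rw [pow_zero, one_mul, zero_add, pow_one, zero_mul] at hu
      refine ⟨0, ?_⟩
      rw [X.hl_inj p q j (by push_cast at h; omega) x hx hu, mul_zero, mul_zero]
    · refine ⟨0, ?_⟩
      rw [zero_pow (by omega), zero_mul, mul_zero]
  hr := by
    intro p q k j h x hx _ h1 h2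
    rcases Nat.eq_zero_or_pos k with rfl | hk
    · obtain ⟨u, hu⟩ := h1
      rw [pow_zero, one_mul, zero_add, pow_one, zero_mul] at hu
      have hne : x ≠ 0 := by
        rintro rfl
        exact h2 ⟨0, by rw [mul_zero, mul_zero]⟩
      obtain ⟨r, hr, h3⟩ := X.hr p q j (by push_cast at h; omega) x hx hne hu
      refine ⟨r, hr, ?_⟩
      rw [pow_zero, one_mul]
      exact h3
    · exact absurd ⟨0, by rw [zero_pow (by omega), zero_mul, mul_zero]⟩ h2

end Pool.Agent.V8H77.RH
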