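import Pool.Agent.V8H77.RH.Count

/-!
# Relations between the numbers of Jordan blocks
-/

open scoped ComplexConjugate
open Module Finset

namespace Pool.Agent.V8H77.RH

open Pool.Agent.W539.DI Pool.Agent.R929.DH Pool.Agent.TH125.Tw

variable {n : ℕ} {X Y : KRing n} {L : X.R} {L' : Y.R}

/-! ### The class of the unit -/

theorem pow_iff (Φ : FM X Y) (hΦ : Intertwines Φ L L') (k : ℕ) : L ^ k = 0 ↔ L' ^ k = 0 := by
  constructor
  · intro h
    have h1 := hΦ.pow k (Φ.φ.symm 1)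
    rw [h, zero_mul, map_zero, LinearEquiv.apply_symm_apply, mul_one] at h1
    exact h1.symm
  · intro h
    apply Φ.φ.injective
    have h1 := hΦ.pow k 1
    rw [mul_one, h, zero_mul] at h1
    rw [h1, map_zero]

theorem finrank_Z_zero (k : ℕ) [Decidable (L ^ k = 0)] :
    finrank ℂ (Z X L k 0 0) = if L ^ k = 0 then 1 else 0 := by
  split_ifs with h
  · have h2 : Z X L k 0 0 = X.H (0, 0) := by
      rw [Z, h]
      have h3 : LinearMap.mulLeft ℂ (0 : X.R) = 0 := by
        ext x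
        simp
      rw [h3, LinearMap.ker_zero, inf_top_eq]
    rw [h2, X.conn]
  · have h2 : Z X L k 0 0 = ⊥ := by
      rw [Submodule.eq_bot_iff]
      intro x hx
      rw [mem_Z] at hx
      have h1 : (1 : X.R) ∈ X.H (0, 0) := X.one_mem
      by_contra hne
      obtain ⟨c, hc⟩ := (finrank_eq_one_iff_of_nonzero' (⟨x, hx.1⟩ : X.H (0, 0)) (by
        intro h3
        exact hne (congrArg Subtype.val h3))).1 X.conn ⟨1, h1⟩
      have h4 : c • x = 1 := congrArg Subtype.val hc
      apply h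
      rw [← mul_one (L ^ k), ← h4, mul_smul_comm, hx.2, smul_zero]
    rw [h2, finrank_bot]

theorem blocks_one (hX : L ∈ X.H (1, 1)) (hY : L' ∈ Y.H (1, 1)) (Φ : FM X Y)
    (hΦ : Intertwines Φ L L') (k : ℕ) : blocks X L k 0 0 = blocks Y L' k 0 0 := by
  classical
  have hT : ∀ (W : KRing n) (M : W.R), M ∈ W.H (1, 1) →
      blocks W M k 0 0 + finrank ℂ (Z W M k 0 0) = finrank ℂ (Z W M (k + 1) 0 0) := by
    intro W M hM
    have h1 := finrank_pc (X := W) (L := M) (k := k) 0 0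
    rw [← blocks_eq hM] at h1
    have h2 : T W M k 0 0 = Z W M k 0 0 := by
      apply le_antisymm
      · intro x hx
        have h3 := mem_T.1 hx
        have h4 : M ^ k * x ∈ ends W M (k + 1) (0 + k) (0 + k) := by
          rw [← map_T hM]
          exact ⟨x, hx, rfl⟩
        obtain ⟨h5, -, u, hu⟩ := mem_ends.1 h4
        rw [mem_Z]
        refine ⟨h3.1.1, ?_⟩
        rw [← hu]
        have h6 : W.H ((0 : ℤ) - 1, (0 : ℤ) - 1) = ⊥ := W.van _ _ (by omega)
        have h7 := comp_mem W ((0 : ℤ) - 1, (0 : ℤ) - 1) u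
        rw [h6, Submodule.mem_bot] at h7
        have h8 := comp_pow W hM (k + 1) ((0 : ℤ) - 1) ((0 : ℤ) - 1) u
        rw [h7, mul_zero] at h8
        have e : (((0 : ℤ) - 1 + ((k + 1 : ℕ) : ℤ), (0 : ℤ) - 1 + ((k + 1 : ℕ) : ℤ)) : ℤ × ℤ) =
            (0 + (k : ℤ), 0 + (k : ℤ)) := by
          ext <;> push_cast <;> ring
        rw [e, hu, comp_same W h5] at h8
        rw [hu, h8]
      · intro x hx
        have h3 := mem_Z.1 hx
        refine mem_T.2 ⟨mem_Z.1 (Z_mono _ _ hx), 0, ?_⟩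
        rw [h3.2, mul_zero]
    rw [h2] at h1
    exact h1
  have h1 := hT X L hX
  have h2 := hT Y L' hY
  rw [finrank_Z_zero, finrank_Z_zero] at h1 h2
  have h3 := pow_iff Φ hΦ k
  have h4 := pow_iff Φ hΦ (k + 1)
  simp only [h3, h4] at h1
  omega

/-! ### Sums -/

theorem sum_odd (f : ℕ → ℕ) (m N : ℕ) (hm : m ≤ 2 * N) (hf : ∀ i, m < i → f i = 0) :
    ∑ i ∈ range (m + 1) with Odd i, f i = ∑ j ∈ range N, f (2 * j + 1) := by
  have h1 : ∀ N : ℕ, ∑ i ∈ range (2 * N + 1) with Odd i, f i = ∑ j ∈ range N, f (2 * j + 1) := by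
    intro N
    induction N with
    | zero => rw [sum_filter]; simp
    | succ N ih =>
      rw [sum_filter] at ih ⊢
      have e : 2 * (N + 1) + 1 = 2 * N + 1 + 1 + 1 := by ring
      rw [e, sum_range_succ, sum_range_succ, ih, sum_range_succ]
      have h2 : Odd (2 * N + 1) := ⟨N, rfl⟩
      have h3 : ¬ Odd (2 * N + 1 + 1) := by
        rw [Nat.not_odd_iff_even]
        exact ⟨N + 1, by ring⟩
      rw [if_pos h2, if_neg h3, add_zero]
  rw [← h1, sum_filter, sum_filter]
  have h2 : 2 * N + 1 = m + 1 + (2 * N - m) := by omega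
  rw [h2, sum_range_add _ (m + 1) (2 * N - m)]
  rw [Finset.sum_eq_zero (s := range (2 * N - m)), add_zero]
  intro i _
  rw [hf _ (by omega)]
  simp

theorem sum_even (f : ℕ → ℕ) (m N : ℕ) (hm : m ≤ 2 * N + 1) (hf : ∀ i, m < i → f i = 0) :
    ∑ i ∈ range (m + 1) with Even i ∧ 2 ≤ i, f i = ∑ j ∈ range N, f (2 * j + 2) := by
  have h1 : ∀ N : ℕ, ∑ i ∈ range (2 * N + 2) with Even i ∧ 2 ≤ i, f i =
      ∑ j ∈ range N, f (2 * j + 2) := by
    intro N
    induction N with
    | zero => rw [sum_filter]; simp [sum_range_succ]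
    | succ N ih =>
      rw [sum_filter] at ih ⊢
      have e : 2 * (N + 1) + 2 = 2 * N + 2 + 1 + 1 := by ring
      rw [e, sum_range_succ, sum_range_succ, ih, sum_range_succ]
      have h2 : Even (2 * N + 2) ∧ 2 ≤ 2 * N + 2 := ⟨⟨N + 1, by ring⟩, by omega⟩
      have h3 : ¬ (Even (2 * N + 2 + 1) ∧ 2 ≤ 2 * N + 2 + 1) := by
        rintro ⟨h4, -⟩
        rw [Nat.even_add_one] at h4
        exact h4 h2.1
      rw [if_pos h2, if_neg h3, add_zero]
  rw [← h1, sum_filter, sum_filter]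
  have h2 : 2 * N + 2 = m + 1 + (2 * N + 1 - m) := by omega
  rw [h2, sum_range_add _ (m + 1) (2 * N + 1 - m)]
  rw [Finset.sum_eq_zero (s := range (2 * N + 1 - m)), add_zero]
  intro i _
  rw [hf _ (by omega)]
  simp

theorem blocks_sub (hL : L ∈ X.H (1, 1)) {k : ℕ} {a b i : ℕ} (h : min a b < i) :
    blocks X L k ((a : ℤ) - i) ((b : ℤ) - i) = 0 := blocks_neg hL (by omega)

theorem odd_tw {N k : ℕ} (hN : N + k = n) (h : RelativeHodge X L) {a b : ℕ} (hab : a + b = N) :
    (tw k hN h).oddDiagonal a b =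
      ∑ j ∈ range n, blocks X L k ((a : ℤ) - 1 - 2 * j) ((b : ℤ) - 1 - 2 * j) := by
  rw [Twisted.oddDiagonal]
  have h1 : ∑ i ∈ range (min a b + 1) with Odd i, (tw k hN h).hodgeNumber (a - i) (b - i) =
      ∑ i ∈ range (min a b + 1) with Odd i, blocks X L k ((a : ℤ) - i) ((b : ℤ) - i) := by
    refine sum_congr rfl fun i hi => ?_
    rw [mem_filter, mem_range] at hi
    rw [blocks_tw, Nat.cast_sub (by omega), Nat.cast_sub (by omega)]
  rw [h1, sum_odd (fun i => blocks X L k ((a : ℤ) - i) ((b : ℤ) - i)) (min a b) n (by omega)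
    fun i hi => blocks_sub h.mem hi]
  refine sum_congr rfl fun j _ => ?_
  push_cast
  rw [show (a : ℤ) - (2 * j + 1) = a - 1 - 2 * j by ring,
    show (b : ℤ) - (2 * j + 1) = b - 1 - 2 * j by ring]

theorem even_tw {N k : ℕ} (hN : N + k = n) (h : RelativeHodge X L) {a b : ℕ} (hab : a + b = N) :
    (tw k hN h).evenDiagonal a b =
      ∑ j ∈ range n, blocks X L k ((a : ℤ) - 2 - 2 * j) ((b : ℤ) - 2 - 2 * j) := by
  rw [Twisted.evenDiagonal]
  have h1 : ∑ i ∈ range (min a b + 1) with Even i ∧ 2 ≤ i,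
      (tw k hN h).hodgeNumber (a - i) (b - i) =
      ∑ i ∈ range (min a b + 1) with Even i ∧ 2 ≤ i,
        blocks X L k ((a : ℤ) - i) ((b : ℤ) - i) := by
    refine sum_congr rfl fun i hi => ?_
    rw [mem_filter, mem_range] at hi
    rw [blocks_tw, Nat.cast_sub (by omega), Nat.cast_sub (by omega)]
  rw [h1, sum_even (fun i => blocks X L k ((a : ℤ) - i) ((b : ℤ) - i)) (min a b) n (by omega)
    fun i hi => blocks_sub h.mem hi]
  refine sum_congr rfl fun j _ => ?_
  push_cast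
  rw [show (a : ℤ) - (2 * j + 2) = a - 2 - 2 * j by ring,
    show (b : ℤ) - (2 * j + 2) = b - 2 - 2 * j by ring]

/-- The first relations. -/
theorem rel_even (hX : RelativeHodge X L) (hY : RelativeHodge Y L') (Φ : FM X Y)
    (hc : Intertwines Φ X.c Y.c) (hΦ : Intertwines Φ L L') (k : ℕ) (a b : ℤ)
    (hab : a + b + k = n) :
    ∑ j ∈ range n, blocks X L k (a - 1 - 2 * j) (b - 1 - 2 * j) =
      ∑ j ∈ range n, blocks Y L' k (a - 1 - 2 * j) (b - 1 - 2 * j) ∧
    blocks X L k a b + 2 * ∑ j ∈ range n, blocks X L k (a - 2 - 2 * j) (b - 2 - 2 * j) =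
      blocks Y L' k a b + 2 * ∑ j ∈ range n, blocks Y L' k (a - 2 - 2 * j) (b - 2 - 2 * j) := by
  by_cases h : a < 0 ∨ b < 0
  · have h0 : ∀ (W : KRing n) (M : W.R), M ∈ W.H (1, 1) →
        (∑ j ∈ range n, blocks W M k (a - 1 - 2 * j) (b - 1 - 2 * j) = 0 ∧
        blocks W M k a b + 2 * ∑ j ∈ range n, blocks W M k (a - 2 - 2 * j) (b - 2 - 2 * j) =
          0) := by
      intro W M hM
      constructor
      · exact sum_eq_zero fun j _ => blocks_neg hM (by omega)
      · rw [blocks_neg hM h, sum_eq_zero fun j _ => blocks_neg hM (by omega), mul_zero, add_zero]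
    rw [(h0 X L hX.mem).1, (h0 Y L' hY.mem).1, (h0 X L hX.mem).2, (h0 Y L' hY.mem).2]
    exact ⟨rfl, rfl⟩
  push Not at h
  obtain ⟨p, rfl⟩ := Int.eq_ofNat_of_zero_le h.1
  obtain ⟨q, rfl⟩ := Int.eq_ofNat_of_zero_le h.2
  have hN : p + q + k = n := by omega
  have h1 := relations (trans k hN hX hY Φ hc hΦ) (p := p) (q := q) rfl
  rw [odd_tw hN hX rfl, odd_tw hN hY rfl, even_tw hN hX rfl, even_tw hN hY rfl, blocks_tw,
    blocks_tw] at h1
  exact h1

/-- The second relations. -/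
theorem rel_odd (hX : RelativeHodge X L) (hY : RelativeHodge Y L') (Φ : FM X Y)
    (hc : Intertwines Φ X.c Y.c) (hΦ : Intertwines Φ L L') (k : ℕ) (a b : ℤ)
    (hab : a + b + k + 1 = n) :
    ∑ j ∈ range n, blocks X L k (a - j) (b - j) =
      ∑ j ∈ range n, blocks Y L' k (a - j) (b - j) := by
  by_cases h : a < 0 ∨ b < 0
  · rw [sum_eq_zero fun j _ => blocks_neg hX.mem (by omega),
      sum_eq_zero fun j _ => blocks_neg hY.mem (by omega)]
  push Not at h
  obtain ⟨p, rfl⟩ := Int.eq_ofNat_of_zero_le h.1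
  obtain ⟨q, rfl⟩ := Int.eq_ofNat_of_zero_le h.2
  have hN : (p + q + 1) + k = n := by omega
  obtain ⟨r, hr⟩ : ∃ r, r = min p q := ⟨_, rfl⟩
  obtain ⟨a, rfl⟩ : ∃ a, p = a + r := ⟨p - r, by omega⟩
  obtain ⟨b, rfl⟩ : ∃ b, q = b + r := ⟨q - r, by omega⟩
  have h1 := column_sum (trans k hN hX hY Φ hc hΦ) (a := a) (b := b) (t := 2 * r + 1) (by omega)
    (by omega)
  have h2 : ∀ (W : KRing n) (M : W.R) (hM : RelativeHodge W M),
      ∑ s ∈ range (2 * r + 1 + 1), (tw k hN hM).hodgeNumber (a + s) (b + s) =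
        2 * ∑ j ∈ range n, blocks W M k (((a + r : ℕ) : ℤ) - j) (((b + r : ℕ) : ℤ) - j) := by
    intro W M hM
    have e : 2 * r + 1 + 1 = (r + 1) + (r + 1) := by ring
    rw [e, sum_range_add]
    have h3 : ∑ x ∈ range (r + 1), (tw k hN hM).hodgeNumber (a + (r + 1 + x)) (b + (r + 1 + x)) =
        ∑ x ∈ range (r + 1), (tw k hN hM).hodgeNumber (a + x) (b + x) := by
      rw [← Finset.sum_range_reflect]
      refine sum_congr rfl fun s hs => ?_
      rw [mem_range] at hs
      exact (tw k hN hM).dim_eq (by omega) (by omega)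
    have h4 : ∑ j ∈ range n, blocks W M k (((a + r : ℕ) : ℤ) - j) (((b + r : ℕ) : ℤ) - j) =
        ∑ x ∈ range (r + 1), (tw k hN hM).hodgeNumber (a + x) (b + x) := by
      rw [← Finset.sum_range_reflect (fun x => (tw k hN hM).hodgeNumber (a + x) (b + x))]
      have e2 : n = (r + 1) + (n - (r + 1)) := by omega
      rw [show range n = range ((r + 1) + (n - (r + 1))) by rw [← e2], sum_range_add,
        Finset.sum_eq_zero (s := range (n - (r + 1))), add_zero]
      · refine sum_congr rfl fun s hs => ?_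
        rw [mem_range] at hs
        rw [blocks_tw]
        congr 1 <;> omega
      · intro i _
        exact blocks_neg hM.mem (by push_cast; omega)
    rw [h3, h4]
    ring
  rw [h2, h2] at h1
  omega

/-! ### The main theorem -/

theorem blocks_main (hX : RelativeHodge X L) (hY : RelativeHodge Y L') (Φ : FM X Y)
    (hc : Intertwines Φ X.c Y.c) (hΦ : Intertwines Φ L L') (k : ℕ)
    (h0 : ∀ p q : ℤ, 0 < p + q → p + q + k + 3 ≤ n → blocks X L k p q = blocks Y L' k p q)
    (p q : ℤ) : blocks X L k p q = blocks Y L' k p q := by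
  have h3 : ∀ p q : ℤ, p + q + k + 3 ≤ n → blocks X L k p q = blocks Y L' k p q := by
    intro p q h
    by_cases h1 : 0 < p + q
    · exact h0 p q h1 h
    by_cases h2 : p < 0 ∨ q < 0
    · rw [blocks_neg hX.mem h2, blocks_neg hY.mem h2]
    obtain rfl : p = 0 := by omega
    obtain rfl : q = 0 := by omega
    exact blocks_one hX.mem hY.mem Φ hΦ k
  have hneg : ∀ p q : ℤ, (p < 0 ∨ q < 0) → blocks X L k p q = blocks Y L' k p q := by
    intro p q h2
    rw [blocks_neg hX.mem h2, blocks_neg hY.mem h2]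
  -- perversity zero
  have hm0 : ∀ p q : ℤ, p + q + k = n → blocks X L k p q = blocks Y L' k p q := by
    intro p q h
    have h1 := (rel_even hX hY Φ hc hΦ k p q h).2
    have h2 : ∑ j ∈ range n, blocks X L k (p - 2 - 2 * j) (q - 2 - 2 * j) =
        ∑ j ∈ range n, blocks Y L' k (p - 2 - 2 * j) (q - 2 - 2 * j) :=
      sum_congr rfl fun j _ => h3 (p - 2 - 2 * j) (q - 2 - 2 * j) (by omega)
    omega
  -- perversity minus two
  have hm2 : ∀ p q : ℤ, p + q + k + 2 = n → blocks X L k p q = blocks Y L' k p q := by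
    intro p q h
    by_cases h2 : p < 0 ∨ q < 0
    · exact hneg p q h2
    have h1 := (rel_even hX hY Φ hc hΦ k (p + 1) (q + 1) (by omega)).1
    obtain ⟨m, rfl⟩ : ∃ m, n = m + 1 := ⟨n - 1, by omega⟩
    rw [sum_range_succ', sum_range_succ'] at h1
    have h4 : ∑ j ∈ range m, blocks X L k (p + 1 - 1 - 2 * ((j + 1 : ℕ) : ℤ))
        (q + 1 - 1 - 2 * ((j + 1 : ℕ) : ℤ)) = ∑ j ∈ range m,
        blocks Y L' k (p + 1 - 1 - 2 * ((j + 1 : ℕ) : ℤ)) (q + 1 - 1 - 2 * ((j + 1 : ℕ) : ℤ)) :=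
      sum_congr rfl fun j _ => h3 _ _ (by push_cast; omega)
    have e1 : p + 1 - 1 - 2 * ((0 : ℕ) : ℤ) = p := by push_cast; ring
    have e2 : q + 1 - 1 - 2 * ((0 : ℕ) : ℤ) = q := by push_cast; ring
    rw [e1, e2] at h1
    omega
  -- perversity minus one
  have hm1 : ∀ p q : ℤ, p + q + k + 1 = n → blocks X L k p q = blocks Y L' k p q := by
    intro p q h
    by_cases h2 : p < 0 ∨ q < 0
    · exact hneg p q h2
    have h1 := rel_odd hX hY Φ hc hΦ k p q h
    obtain ⟨m, rfl⟩ : ∃ m, n = m + 1 := ⟨n - 1, by omega⟩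
    rw [sum_range_succ', sum_range_succ'] at h1
    have h4 : ∑ j ∈ range m, blocks X L k (p - ((j + 1 : ℕ) : ℤ)) (q - ((j + 1 : ℕ) : ℤ)) =
        ∑ j ∈ range m, blocks Y L' k (p - ((j + 1 : ℕ) : ℤ)) (q - ((j + 1 : ℕ) : ℤ)) :=
      sum_congr rfl fun j _ => h3 _ _ (by push_cast; omega)
    have e1 : p - ((0 : ℕ) : ℤ) = p := by push_cast; ring
    have e2 : q - ((0 : ℕ) : ℤ) = q := by push_cast; ring
    rw [e1, e2] at h1
    omega
  have hlow : ∀ p q : ℤ, p + q + k ≤ n → blocks X L k p q = blocks Y L' k p q := by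
    intro p q h
    rcases (show p + q + k = n ∨ p + q + k + 1 = n ∨ p + q + k + 2 = n ∨ p + q + k + 3 ≤ n by
      omega) with h1 | h1 | h1 | h1
    · exact hm0 p q h1
    · exact hm1 p q h1
    · exact hm2 p q h1
    · exact h3 p q h1
  by_cases h : p + q + k ≤ n
  · exact hlow p q h
  · rw [blocks_dual hX (p := p) (q := q) (p' := n - k - q) (q' := n - k - p) (by ring) (by ring),
      blocks_dual hY (p := p) (q := q) (p' := n - k - q) (q' := n - k - p) (by ring) (by ring)]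
    exact hlow _ _ (by omega)

end Pool.Agent.V8H77.RH
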