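import Pool.Agent.V8H77.RH.Comp
import Pool.Agent.TH125.Tw.Main

/-!
# The primitive part of a class of type (1, 1) as a twisted cohomology
-/

open scoped ComplexConjugate
open Module

namespace Pool.Agent.V8H77.RH

open Pool.Agent.W539.DI Pool.Agent.R929.DH Pool.Agent.TH125.Tw

variable {n : ℕ} (X : KRing n) (L : X.R) (k : ℕ)

/-- The primitive part: the kernel of `L ^ (k + 1)` modulo the classes with
`L ^ k x ∈ L ^ (k + 1) R`. -/
abbrev Prim : Type := (Ker X L k) ⧸ (RadK X L k)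

/-- The class in the primitive part. -/
def cl : Ker X L k →ₗ[ℂ] Prim X L k := (RadK X L k).mkQ

/-- The part of type `(p, q)`. -/
def pc (i : ℤ × ℤ) : Submodule ℂ (Prim X L k) :=
  ((X.H i).comap (Ker X L k).subtype).map (cl X L k)

variable {X L k}

theorem cl_surj (z : Prim X L k) : ∃ x : Ker X L k, cl X L k x = z :=
  Submodule.mkQ_surjective _ z

theorem cl_eq_zero {x : Ker X L k} : cl X L k x = 0 ↔ Rad X L k x := by
  rw [cl, Submodule.mkQ_apply, Submodule.Quotient.mk_eq_zero, mem_RadK]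

theorem mem_pc {i : ℤ × ℤ} {z : Prim X L k} :
    z ∈ pc X L k i ↔ ∃ x : Ker X L k, (x : X.R) ∈ X.H i ∧ cl X L k x = z := by
  rw [pc, Submodule.mem_map]
  rfl

/-- The linear map induced on the primitive part by a linear map of the ring. -/
def ind (f : X.R →ₗ[ℂ] X.R) (h1 : ∀ x ∈ Ker X L k, f x ∈ Ker X L k)
    (h2 : ∀ x ∈ Ker X L k, Rad X L k x → Rad X L k (f x)) : Prim X L k →ₗ[ℂ] Prim X L k :=
  Submodule.mapQ _ _ (f.restrict h1) (by
    intro x hx
    rw [Submodule.mem_comap, mem_RadK]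
    exact h2 x x.2 (mem_RadK.1 hx))

theorem ind_cl {f : X.R →ₗ[ℂ] X.R} {h1 : ∀ x ∈ Ker X L k, f x ∈ Ker X L k}
    {h2 : ∀ x ∈ Ker X L k, Rad X L k x → Rad X L k (f x)} (x : Ker X L k) :
    ind f h1 h2 (cl X L k x) = cl X L k ⟨f x, h1 x x.2⟩ := rfl

/-- The projection to the part of type `i`. -/
noncomputable def proj (hL : L ∈ X.H (1, 1)) (i : ℤ × ℤ) : Prim X L k →ₗ[ℂ] Prim X L k :=
  ind (comp X i) (fun _ hx => comp_Ker hL hx i) (fun _ _ hx => comp_Rad hL hx i)

theorem proj_same (hL : L ∈ X.H (1, 1)) {i : ℤ × ℤ} {z : Prim X L k} (hz : z ∈ pc X L k i) :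
    proj hL i z = z := by
  obtain ⟨x, hx, rfl⟩ := mem_pc.1 hz
  rw [proj, ind_cl]
  congr 1
  exact Subtype.ext (comp_same X hx)

theorem proj_ne (hL : L ∈ X.H (1, 1)) {i j : ℤ × ℤ} {z : Prim X L k} (hz : z ∈ pc X L k i)
    (h : i ≠ j) : proj hL j z = 0 := by
  obtain ⟨x, hx, rfl⟩ := mem_pc.1 hz
  rw [proj, ind_cl, ← map_zero (cl X L k)]
  congr 1
  exact Subtype.ext (comp_ne X hx h)

theorem cl_sum (hL : L ∈ X.H (1, 1)) (x : Ker X L k) (s : Finset (ℤ × ℤ))
    (hs : (x : X.R) = ∑ i ∈ s, comp X i x) :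
    cl X L k x = ∑ i ∈ s, cl X L k ⟨comp X i x, comp_Ker hL x.2 i⟩ := by
  rw [← map_sum]
  congr 1
  apply Subtype.ext
  rw [Submodule.coe_sum]
  exact hs

theorem pc_neg {p q : ℤ} (h : p < 0 ∨ q < 0) : pc X L k (p, q) = ⊥ := by
  rw [Submodule.eq_bot_iff]
  intro z hz
  obtain ⟨x, hx, rfl⟩ := mem_pc.1 hz
  rw [X.van p q h, Submodule.mem_bot] at hx
  rw [← map_zero (cl X L k)]
  congr 1
  exact Subtype.ext hx

/-- The type as a pair of integers. -/
def ty (i : ℕ × ℕ) : ℤ × ℤ := ((i.1 : ℤ), (i.2 : ℤ))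

theorem ty_inj : Function.Injective ty := by
  rintro ⟨a, b⟩ ⟨c, d⟩ h
  have h1 := congrArg Prod.fst h
  have h2 := congrArg Prod.snd h
  simp only [ty] at h1 h2
  ext <;> simp only <;> omega

theorem internal (hL : L ∈ X.H (1, 1)) :
    DirectSum.IsInternal fun i : ℕ × ℕ => pc X L k (ty (i.1, i.2)) := by
  rw [DirectSum.isInternal_submodule_iff_iSupIndep_and_iSup_eq_top]
  constructor
  · intro i
    rw [Submodule.disjoint_def]
    intro z hz hz'
    have h1 : (⨆ (j : ℕ × ℕ) (_ : j ≠ i), pc X L k (ty (j.1, j.2))) ≤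
        LinearMap.ker (proj hL (ty (i.1, i.2)) : Prim X L k →ₗ[ℂ] Prim X L k) := by
      refine iSup₂_le fun j hj y hy => ?_
      rw [LinearMap.mem_ker]
      exact proj_ne hL hy fun h => hj (ty_inj h)
    have h2 := h1 hz'
    rw [LinearMap.mem_ker, proj_same hL hz] at h2
    exact h2
  · rw [eq_top_iff]
    intro z _
    obtain ⟨x, rfl⟩ := cl_surj z
    obtain ⟨s, hs⟩ := exists_sum X (x : X.R)
    rw [cl_sum hL x s hs]
    refine Submodule.sum_mem _ fun i _ => ?_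
    have h1 : cl X L k ⟨comp X i x, comp_Ker hL x.2 i⟩ ∈ pc X L k i :=
      mem_pc.2 ⟨_, comp_mem X i x, rfl⟩
    obtain ⟨p, q⟩ := i
    by_cases h : p < 0 ∨ q < 0
    · rw [pc_neg h, Submodule.mem_bot] at h1
      rw [h1]
      exact Submodule.zero_mem _
    · push Not at h
      obtain ⟨a, rfl⟩ := Int.eq_ofNat_of_zero_le h.1
      obtain ⟨b, rfl⟩ := Int.eq_ofNat_of_zero_le h.2
      exact Submodule.mem_iSup_of_mem (p := fun i : ℕ × ℕ => pc X L k (ty (i.1, i.2))) (a, b) h1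

/-! ### The form -/

/-- The form for a fixed first argument. -/
noncomputable def formA (hL : L ∈ X.H (1, 1)) (hb : X.bar L = L) (x : Ker X L k) :
    Prim X L k →ₛₗ[starRingEnd ℂ] ℂ :=
  Submodule.liftQ (RadK X L k) ((bil X L k x).comp (Ker X L k).subtype) (by
    intro y hy
    rw [LinearMap.mem_ker]
    exact bil_right hL x.2 hb (mem_RadK.1 hy))

theorem formA_cl (hL : L ∈ X.H (1, 1)) (hb : X.bar L = L) (x y : Ker X L k) :
    formA hL hb x (cl X L k y) = bil X L k x y := rfl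

/-- The form for a first argument in the kernel. -/
noncomputable def formB (hL : L ∈ X.H (1, 1)) (hb : X.bar L = L) :
    Ker X L k →ₗ[ℂ] Prim X L k →ₛₗ[starRingEnd ℂ] ℂ where
  toFun := formA hL hb
  map_add' x y := by
    apply LinearMap.ext
    intro z
    obtain ⟨z, rfl⟩ := cl_surj z
    rw [LinearMap.add_apply, formA_cl, formA_cl, formA_cl, Submodule.coe_add, map_add,
      LinearMap.add_apply]
  map_smul' a x := by
    apply LinearMap.ext
    intro z
    obtain ⟨z, rfl⟩ := cl_surj z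
    rw [LinearMap.smul_apply, formA_cl, formA_cl, Submodule.coe_smul, map_smul,
      LinearMap.smul_apply]
    rfl

/-- The form `∫ L ^ k x bar y` on the primitive part. -/
noncomputable def form (hL : L ∈ X.H (1, 1)) (hb : X.bar L = L) :
    Prim X L k →ₗ[ℂ] Prim X L k →ₛₗ[starRingEnd ℂ] ℂ :=
  Submodule.liftQ (RadK X L k) (formB hL hb) (by
    intro x hx
    rw [LinearMap.mem_ker]
    apply LinearMap.ext
    intro z
    obtain ⟨z, rfl⟩ := cl_surj z
    exact bil_left hL (mem_RadK.1 hx) hb z.2)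

theorem form_cl (hL : L ∈ X.H (1, 1)) (hb : X.bar L = L) (x y : Ker X L k) :
    form hL hb (cl X L k x) (cl X L k y) = X.tr (L ^ k * ((x : X.R) * X.bar y)) := rfl

/-- The graded space with its form. -/
noncomputable def gf (k : ℕ) (hL : L ∈ X.H (1, 1)) (hb : X.bar L = L) : GradedForm where
  H := Prim X L k
  piece p q := pc X L k (ty (p, q))
  internal := internal hL
  form := form hL hb

theorem gf_duality {k N : ℕ} (hN : N + k = n) (hL : L ∈ X.H (1, 1)) (hb : X.bar L = L) :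
    IsDuality (gf k hL hb) N where
  form_zero := by
    intro p q p' q' x y hx0 hy0 h
    obtain ⟨x, hx, rfl⟩ := mem_pc.1 hx0
    obtain ⟨y, hy, rfl⟩ := mem_pc.1 hy0
    show form hL hb _ _ = 0
    rw [form_cl]
    refine X.tr_van _ _ _ (X.pow_mul_mem hL k (X.mul_mem hx (X.bar_mem _ _ _ hy))) ?_
    rintro ⟨h1, h2⟩
    apply h
    ext <;> simp only <;> omega
  form_swap := by
    intro p q p' q' x y hx0 hy0
    obtain ⟨x, hx, rfl⟩ := mem_pc.1 hx0
    obtain ⟨y, hy, rfl⟩ := mem_pc.1 hy0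
    show form hL hb _ _ = _ * starRingEnd ℂ (form hL hb _ _)
    rw [form_cl, form_cl, ← X.tr_bar, bar_pow hb, X.bar_mul, X.bar_bar,
      X.comm _ _ _ _ _ _ (X.bar_mem _ _ _ hx) hy, mul_smul_comm, map_smul, smul_eq_mul]
    have e : ((-1 : ℂ)) ^ ((p + q) * (p' + q')) *
        (-1) ^ (((q : ℤ) + p) * ((p' : ℤ) + q')) = 1 := by
      have e1 : (((q : ℤ) + p) * ((p' : ℤ) + q')) = (((p + q) * (p' + q') : ℕ) : ℤ) := by
        push_cast
        ring
      rw [e1, zpow_natCast, ← mul_pow]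
      norm_num
    show _ = ((-1 : ℂ)) ^ ((p + q) * (p' + q')) *
      ((-1) ^ (((q : ℤ) + p) * ((p' : ℤ) + q')) * X.tr (L ^ k * ((y : X.R) * X.bar x)))
    rw [← mul_assoc (((-1 : ℂ)) ^ ((p + q) * (p' + q'))), e, one_mul]
  form_nondeg := by
    intro x h
    obtain ⟨x, rfl⟩ := cl_surj x
    refine cl_eq_zero.2 ?_
    refine rad_of_bil hL hb fun y hy => ?_
    exact h (cl X L k ⟨y, hy⟩)

/-- The multiplication by a class. -/
noncomputable def lefQ (k : ℕ) (z : X.R) (hL : L ∈ X.H (1, 1)) : Prim X L k →ₗ[ℂ] Prim X L k :=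
  ind (LinearMap.mulLeft ℂ z) (fun _ hx => lef_Ker hL hx) (fun _ _ hx => lef_Rad hL hx)

theorem lefQ_cl (z : X.R) (hL : L ∈ X.H (1, 1)) (x : Ker X L k) :
    lefQ k z hL (cl X L k x) = cl X L k ⟨z * x, lef_Ker hL x.2⟩ := rfl

theorem lefQ_pow (z : X.R) (hL : L ∈ X.H (1, 1)) (x : Ker X L k) (j : ℕ) :
    (lefQ k z hL ^ j) (cl X L k x) = cl X L k ⟨z ^ j * x, lef_Ker hL x.2⟩ := by
  induction j with
  | zero =>
    rw [pow_zero, Module.End.one_apply]
    congr 1
    exact Subtype.ext (by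
      show (x : X.R) = z ^ 0 * x
      rw [pow_zero, one_mul])
  | succ j ih =>
    rw [pow_succ', Module.End.mul_apply, ih, lefQ_cl]
    congr 1
    exact Subtype.ext (by
      show z * (z ^ j * x) = z ^ (j + 1) * x
      rw [← mul_assoc, pow_succ'])

theorem cup (hL : L ∈ X.H (1, 1)) (hb : X.bar L = L) {z : X.R} (hz : z ∈ X.H (1, 1))
    (hz' : X.bar z = z) : IsCupProduct (gf k hL hb) (lefQ k z hL) where
  mem := by
    intro p q x hx0
    obtain ⟨x, hx, rfl⟩ := mem_pc.1 hx0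
    show lefQ k z hL _ ∈ _
    rw [lefQ_cl]
    refine mem_pc.2 ⟨_, ?_, rfl⟩
    have h := X.mul_mem hz hx
    have e : ((1 : ℤ) + p, (1 : ℤ) + q) = ty (p + 1, q + 1) := by
      ext <;> simp [ty, add_comm]
    rw [← e]
    exact h
  form_eq := by
    intro x y
    obtain ⟨x, rfl⟩ := cl_surj x
    obtain ⟨y, rfl⟩ := cl_surj y
    show form hL hb (lefQ k z hL _) _ = form hL hb _ (lefQ k z hL _)
    rw [lefQ_cl, lefQ_cl, form_cl, form_cl]
    show X.tr (L ^ k * ((z * (x : X.R)) * X.bar y)) = X.tr (L ^ k * ((x : X.R) * X.bar (z * y)))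
    rw [X.bar_mul, hz', X.central hz, mul_assoc]

theorem I_pow_sub (p q : ℕ) :
    Complex.I ^ ((p : ℤ) - q) = Complex.I ^ p * (-Complex.I) ^ q := by
  rw [zpow_sub₀ Complex.I_ne_zero, zpow_natCast, zpow_natCast, div_eq_mul_inv, ← inv_pow,
    Complex.inv_I]

theorem sign_eq (p q : ℕ) : (-1 : ℂ) ^ (((p : ℤ) + q) * ((p : ℤ) + q - 1) / 2) =
    (-1) ^ ((p + q) * (p + q - 1) / 2) := by
  rw [← zpow_natCast]
  congr 1
  rcases Nat.eq_zero_or_pos (p + q) with h | h
  · have h1 : (p : ℤ) + q = 0 := by omega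
    rw [h, h1]
    simp
  · push_cast [Nat.cast_sub h]
    rfl

/-- The primitive part of `L` in length `k + 1` as a twisted cohomology of dimension `n - k`. -/
noncomputable def tw {N : ℕ} (k : ℕ) (hN : N + k = n) (h : RelativeHodge X L) : Twisted N where
  toGradedForm := gf k h.mem h.real
  duality := gf_duality hN h.mem h.real
  lef := lefQ k X.ω h.mem
  lef_cup := cup h.mem h.real X.ω_mem X.ω_bar
  hardLefschetz := by
    intro p q x hx' hpq hx0
    obtain ⟨x, hx, rfl⟩ := mem_pc.1 hx'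
    obtain ⟨j, hj⟩ : ∃ j, N - (p + q) = j := ⟨_, rfl⟩
    rw [hj] at hx0
    have h1 : (lefQ k X.ω h.mem ^ j) (cl X L k x) = 0 := hx0
    rw [lefQ_pow, cl_eq_zero] at h1
    refine cl_eq_zero.2 ?_
    exact h.hl p q k j (by omega) x hx (mem_Ker.1 x.2) h1
  hodgeRiemann := by
    intro p q x hx' hpq hx0 hne
    obtain ⟨x, hx, rfl⟩ := mem_pc.1 hx'
    obtain ⟨j, hj⟩ : ∃ j, N - (p + q) = j := ⟨_, rfl⟩
    rw [hj] at hx0 ⊢
    have h1 : (lefQ k X.ω h.mem ^ (j + 1)) (cl X L k x) = 0 := hx0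
    rw [lefQ_pow, cl_eq_zero] at h1
    have h2 : ¬ Rad X L k x := fun h3 => hne (cl_eq_zero.2 h3)
    obtain ⟨r, hr, h4⟩ := h.hr p q k j (by omega) x hx (mem_Ker.1 x.2) h1 h2
    have h5 : (gf k h.mem h.real).form ((lefQ k X.ω h.mem ^ j) (cl X L k x)) (cl X L k x) =
        X.tr (L ^ k * (X.ω ^ j * ((x : X.R) * X.bar x))) := by
      rw [lefQ_pow]
      show form h.mem h.real _ _ = _
      rw [form_cl]
      show X.tr (L ^ k * ((X.ω ^ j * (x : X.R)) * X.bar x)) = _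
      rw [mul_assoc (X.ω ^ j)]
    rw [I_pow_sub, sign_eq] at h4
    show 0 < (Complex.I ^ p * (-Complex.I) ^ q * (-1) ^ ((p + q) * (p + q - 1) / 2) *
      (gf k h.mem h.real).form ((lefQ k X.ω h.mem ^ j) (cl X L k x)) (cl X L k x)).re
    rw [h5, h4, Complex.ofReal_re]
    exact hr
  chern := 0
  chern_cup := {
    mem := fun _ => Submodule.zero_mem _
    form_eq := fun x y => by
      rw [LinearMap.zero_apply, LinearMap.zero_apply, map_zero, map_zero]
      rfl }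

end Pool.Agent.V8H77.RH
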