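import Pool.Agent.V8H77.RH.Quot
import Pool.Agent.R929.DH.Main

/-!
# The transform of the primitive parts
-/

open scoped ComplexConjugate
open Module

namespace Pool.Agent.V8H77.RH

open Pool.Agent.W539.DI Pool.Agent.R929.DH Pool.Agent.TH125.Tw

variable {n : ℕ} {X Y : KRing n} {L : X.R} {L' : Y.R} {k : ℕ}

/-- The class in the primitive part, as an element of the twisted cohomology. -/
noncomputable def clT {N : ℕ} (hN : N + k = n) (h : RelativeHodge X L) :
    Ker X L k →ₗ[ℂ] (tw k hN h).H := cl X L k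

theorem clT_surj {N : ℕ} (hN : N + k = n) (h : RelativeHodge X L) (z : (tw k hN h).H) :
    ∃ x : Ker X L k, clT hN h x = z := cl_surj z

theorem expChern_tw {N : ℕ} (hN : N + k = n) (h : RelativeHodge X L) (t : ℂ)
    (x : (tw k hN h).H) : (tw k hN h).expChern t x = x := by
  rw [Twisted.expChern_eq, Finset.sum_eq_single 0]
  · rw [pow_zero, pow_zero, Nat.factorial_zero, Nat.cast_one, div_one, one_smul]
    rfl
  · intro m _ hm
    have h1 : (tw k hN h).chern = 0 := rfl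
    rw [h1, zero_pow hm, LinearMap.zero_apply, smul_zero]
  · intro h1
    exact absurd (Finset.mem_range.2 (Nat.succ_pos N)) h1

theorem mukai_def {N : ℕ} (V : Twisted N) (x y : V.H) :
    V.mukai x y = V.form (V.expChern (1 / 2) (V.dual x)) y := rfl

theorem mukai_hom {N : ℕ} (hN : N + k = n) (h : RelativeHodge X L) {i : ℤ × ℤ} (x y : Ker X L k)
    (hx : (x : X.R) ∈ X.H i) :
    (tw k hN h).mukai (clT hN h x) (clT hN h y) = hf X L k x y := by
  obtain ⟨p, q⟩ := i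
  by_cases hneg : p < 0 ∨ q < 0
  · rw [X.van p q hneg, Submodule.mem_bot] at hx
    have h0 : x = 0 := Subtype.ext hx
    subst h0
    rw [mukai_def, map_zero, map_zero, map_zero, map_zero, LinearMap.zero_apply, hf,
      Submodule.coe_zero, map_zero, zero_mul, map_zero]
  · push Not at hneg
    obtain ⟨a, rfl⟩ := Int.eq_ofNat_of_zero_le hneg.1
    obtain ⟨b, rfl⟩ := Int.eq_ofNat_of_zero_le hneg.2
    have h1 : clT hN h x ∈ (tw k hN h).piece a b := mem_pc.2 ⟨x, hx, rfl⟩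
    rw [mukai_def, (tw k hN h).dual_apply h1, expChern_tw, map_smul, LinearMap.smul_apply,
      hf_hom h.mem hx, smul_eq_mul]
    have h2 : (Complex.I ^ (a + b) : ℂ) = Complex.I ^ ((a : ℤ) + b) := by
      rw [← zpow_natCast]
      push_cast
      rfl
    rw [h2]
    rfl

theorem hf_sum (s : Finset (ℤ × ℤ)) (f : ℤ × ℤ → X.R) (y : X.R) :
    hf X L k (∑ i ∈ s, f i) y = ∑ i ∈ s, hf X L k (f i) y := by
  unfold hf
  rw [map_sum, Finset.sum_mul, map_sum]

theorem mukai_sum {N : ℕ} (V : Twisted N) (s : Finset (ℤ × ℤ)) (f : ℤ × ℤ → V.H) (y : V.H) :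
    V.mukai (∑ i ∈ s, f i) y = ∑ i ∈ s, V.mukai (f i) y := by
  unfold Twisted.mukai
  rw [map_sum, map_sum, map_sum, LinearMap.sum_apply]

theorem clT_sum {N : ℕ} (hN : N + k = n) (h : RelativeHodge X L) (x : Ker X L k)
    (s : Finset (ℤ × ℤ)) (hs : (x : X.R) = ∑ i ∈ s, comp X i x) :
    clT hN h x = ∑ i ∈ s, clT hN h ⟨comp X i x, comp_Ker h.mem x.2 i⟩ := by
  rw [← map_sum]
  congr 1
  apply Subtype.ext
  rw [Submodule.coe_sum]
  exact hs

theorem mukai_cl {N : ℕ} (hN : N + k = n) (h : RelativeHodge X L) (x y : Ker X L k) :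
    (tw k hN h).mukai (clT hN h x) (clT hN h y) = hf X L k x y := by
  obtain ⟨s, hs⟩ := exists_sum X (x : X.R)
  rw [clT_sum hN h x s hs, mukai_sum]
  have h3 : hf X L k (x : X.R) y = ∑ i ∈ s, hf X L k (comp X i x) y := by
    conv_lhs => rw [hs]
    exact hf_sum s _ _
  rw [h3]
  refine Finset.sum_congr rfl fun i _ => ?_
  exact mukai_hom hN h ⟨comp X i x, comp_Ker h.mem x.2 i⟩ y (comp_mem X i x)

/-! ### The transform -/

variable (Φ : FM X Y)

theorem Ker_map (hΦ : Intertwines Φ L L') :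
    (Ker X L k).map (Φ.φ : X.R →ₗ[ℂ] Y.R) = Ker Y L' k := by
  ext y
  rw [Submodule.mem_map, mem_Ker]
  constructor
  · rintro ⟨x, hx, rfl⟩
    rw [mem_Ker] at hx
    show L' ^ (k + 1) * Φ.φ x = 0
    rw [← hΦ.pow, hx, map_zero]
  · intro hy
    refine ⟨Φ.φ.symm y, ?_, Φ.φ.apply_symm_apply y⟩
    rw [mem_Ker]
    apply Φ.φ.injective
    rw [hΦ.pow, LinearEquiv.apply_symm_apply, hy, map_zero]

theorem Rad_map (hΦ : Intertwines Φ L L') {x : X.R} :
    Rad X L k x ↔ Rad Y L' k (Φ.φ x) := by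
  constructor
  · rintro ⟨u, hu⟩
    refine ⟨Φ.φ u, ?_⟩
    rw [← hΦ.pow, hu, hΦ.pow]
  · rintro ⟨u, hu⟩
    refine ⟨Φ.φ.symm u, ?_⟩
    apply Φ.φ.injective
    rw [hΦ.pow, hu, hΦ.pow, LinearEquiv.apply_symm_apply]

/-- The map of the kernels. -/
noncomputable def kerEquiv (hΦ : Intertwines Φ L L') : Ker X L k ≃ₗ[ℂ] Ker Y L' k :=
  LinearEquiv.ofSubmodules Φ.φ _ _ (Ker_map Φ hΦ)

theorem kerEquiv_coe (hΦ : Intertwines Φ L L') (x : Ker X L k) :
    (kerEquiv Φ hΦ x : Y.R) = Φ.φ x := rfl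

theorem RadK_map (hΦ : Intertwines Φ L L') :
    (RadK X L k).map (kerEquiv (k := k) Φ hΦ).toLinearMap = RadK Y L' k := by
  ext y
  rw [Submodule.mem_map, mem_RadK]
  constructor
  · rintro ⟨x, hx, rfl⟩
    rw [mem_RadK] at hx
    exact (Rad_map Φ hΦ).1 hx
  · intro hy
    refine ⟨(kerEquiv Φ hΦ).symm y, ?_, (kerEquiv Φ hΦ).apply_symm_apply y⟩
    rw [mem_RadK, Rad_map Φ hΦ, ← kerEquiv_coe Φ hΦ, LinearEquiv.apply_symm_apply]
    exact hy

/-- The map of the primitive parts. -/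
noncomputable def primEquiv (hΦ : Intertwines Φ L L') : Prim X L k ≃ₗ[ℂ] Prim Y L' k :=
  Submodule.Quotient.equiv (RadK X L k) (RadK Y L' k) (kerEquiv Φ hΦ) (RadK_map Φ hΦ)

theorem primEquiv_cl (hΦ : Intertwines Φ L L') (x : Ker X L k) :
    primEquiv Φ hΦ (cl X L k x) = cl Y L' k (kerEquiv Φ hΦ x) := rfl

theorem comp_column {p q p' q' : ℤ} {y : Y.R} (hy : y ∈ ⨆ m : ℤ, Y.H (p + m, q + m))
    (h : p' - q' ≠ p - q) : comp Y (p', q') y = 0 := by
  have h1 : (⨆ m : ℤ, Y.H (p + m, q + m)) ≤ LinearMap.ker (comp Y (p', q')) := by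
    refine iSup_le fun m z hz => ?_
    rw [LinearMap.mem_ker]
    refine comp_ne Y hz fun h2 => h ?_
    have h3 := congrArg Prod.fst h2
    have h4 := congrArg Prod.snd h2
    simp only at h3 h4
    omega
  exact h1 hy

theorem cl_column {N : ℕ} (hN : N + k = n) (h : RelativeHodge Y L') {p q : ℕ} (y : Ker Y L' k)
    (hy : (y : Y.R) ∈ ⨆ m : ℤ, Y.H ((p : ℤ) + m, (q : ℤ) + m)) :
    clT hN h y ∈ (tw k hN h).column p q := by
  obtain ⟨s, hs⟩ := exists_sum Y (y : Y.R)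
  rw [clT_sum hN h y s hs]
  refine Submodule.sum_mem _ fun i _ => ?_
  obtain ⟨p', q'⟩ := i
  by_cases h1 : p' - q' = (p : ℤ) - q
  · have h2 : cl Y L' k ⟨comp Y (p', q') y, comp_Ker h.mem y.2 _⟩ ∈ pc Y L' k (p', q') :=
      mem_pc.2 ⟨_, comp_mem Y (p', q') y, rfl⟩
    by_cases hneg : p' < 0 ∨ q' < 0
    · rw [pc_neg hneg, Submodule.mem_bot] at h2
      have h3 : clT hN h ⟨comp Y (p', q') y, comp_Ker h.mem y.2 _⟩ = 0 := h2
      rw [h3]
      exact Submodule.zero_mem _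
    · push Not at hneg
      obtain ⟨a, rfl⟩ := Int.eq_ofNat_of_zero_le hneg.1
      obtain ⟨b, rfl⟩ := Int.eq_ofNat_of_zero_le hneg.2
      exact Submodule.mem_iSup_of_mem a (Submodule.mem_iSup_of_mem b
        (Submodule.mem_iSup_of_mem (by omega) h2))
  · have h2 : comp Y (p', q') (y : Y.R) = 0 := comp_column hy h1
    have h3 : (⟨comp Y (p', q') y, comp_Ker h.mem y.2 _⟩ : Ker Y L' k) = 0 := Subtype.ext h2
    rw [h3, map_zero]
    exact Submodule.zero_mem _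

/-- The transform of the primitive parts. -/
noncomputable def trans {N : ℕ} (k : ℕ) (hN : N + k = n) (hX : RelativeHodge X L)
    (hY : RelativeHodge Y L') (Φ : FM X Y) (hc : Intertwines Φ X.c Y.c)
    (hΦ : Intertwines Φ L L') : Transform (tw k hN hX) (tw k hN hY) where
  map := primEquiv Φ hΦ
  map_mem := by
    intro p q x hx'
    obtain ⟨x, hx, rfl⟩ := mem_pc.1 hx'
    show primEquiv Φ hΦ (cl X L k x) ∈ _
    rw [primEquiv_cl]
    refine cl_column hN hY (kerEquiv Φ hΦ x) ?_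
    rw [kerEquiv_coe, ← Φ.hodge]
    refine Submodule.mem_map_of_mem (f := (Φ.φ : X.R →ₗ[ℂ] Y.R)) ?_
    refine Submodule.mem_iSup_of_mem 0 ?_
    rw [add_zero, add_zero]
    exact hx
  map_mukai := by
    intro x y
    obtain ⟨x, rfl⟩ := clT_surj hN hX x
    obtain ⟨y, rfl⟩ := clT_surj hN hX y
    rw [mukai_cl]
    refine (mukai_cl hN hY (kerEquiv Φ hΦ x) (kerEquiv Φ hΦ y)).trans ?_
    rw [kerEquiv_coe, kerEquiv_coe, hf_iso hc hΦ]

end Pool.Agent.V8H77.RH
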